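import Pool.Agent.K7.H87.FJ6.Am

/-!
# Artin groups

`C` is any class of groups with the closure properties `ClosedE C` which contains the groups `F ⋊ Z` for
all free groups `F` and all automorphisms of `F`. All this is published for the class of the groups which
satisfy the Full Farrell–Jones Conjecture.

`Sh M p` is the group with a generator for each element of the finite set `S`, the braid relations of the
Coxeter matrix `M` (the entry `0` stands for infinity: no relation) and the relations `s ^ p s = 1`
(`p s = 0`: no relation). For `p = 0` it is the Artin group, for `p = 2` the Coxeter group of `M`. We assume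
that all `p s` are even and that `p s = p t` if `M s t` is odd (`Adm M p`).

(1) The criterion. Suppose that every subset `X` of `S` has one of the following two properties:
* `Completable C M p X`: one can replace some entries `∞` of `M|X` by other entries (with `Adm`) such that the
  group of the new matrix is in `C`;
* `Splits C M p X`: `X` is the union of two proper subsets `Y`, `Z` such that `M y z = ∞` for `y ∈ Y \ Z` and
  `z ∈ Z \ Y`, and there is a map `ρ` of `X` to the generators (or `1`) of a group `Sh N q` in `C` such that
  the label of `ρ x`, `ρ y` divides the label of `x`, `y` (the label of `1` and a generator is `2`), with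
  equality for `x, y ∈ Y ∩ Z`.
Then `Sh M p` is in `C`.

(2) If `Sh M' p` is in `C` and `M` arises from `M'` by replacing some entries by `∞` (deleting braid
relations), then `Sh M p` is in `C`.

(3) Let `E` be a set of natural numbers. If the groups `Sh M p` with values of `p` in `E` are in `C` whenever
`M` has no entry `∞`, then all groups `Sh M p` with values of `p` in `E` are in `C`. For `E = {0}`: if the
Artin groups of the Coxeter matrices without `∞` are in `C`, then all Artin groups of finite rank are.

Outline of the proof. If `M s t = ∞`, then `Sh M p` is the amalgam of the groups of `S \ {s}` and `S \ {t}` over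
the group of `S \ {s, t}`; a homomorphism to a group in `C` which is injective on the amalgamated subgroup has
a kernel which is the free product of a free group and of subgroups of conjugates of the factors, and the
theorem on extensions whose kernel is a free product (`MP_490288_al.FreeProductExtensions`) applies. The
injectivity follows from the theorem of van der Lek on standard parabolic subgroups, which is proved here for
the groups `Sh M p` by an action on pairs (element of the parabolic group, minimal representative of a coset
of the Coxeter group).
-/

set_option autoImplicit false

namespace Pool.Agent.Results.MP_490288_al.ArtinGroups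

open Pool.Agent.Y110.FJ Pool.Agent.K7.H87.FJ6

theorem result (C : ∀ (G : Type) [Group G], Prop) (hC : ClosedE C)
    (hF : ∀ (X : Type) (α : MulAut (FreeGroup X)),
      C (FreeGroup X ⋊[zpowersHom (MulAut (FreeGroup X)) α] Multiplicative ℤ)) :
    (∀ (S : Type) [Finite S] (M : CoxeterMatrix S) (p : S → ℕ), Adm M p →
      (∀ X : Set S, Completable C M p X ∨ Splits C M p X) → C (Sh M p)) ∧
    (∀ (S : Type) [Finite S] (M M' : CoxeterMatrix S) (p : S → ℕ), Adm M' p → C (Sh M' p) →
      (∀ s t, M s t = M' s t ∨ M s t = 0) → C (Sh M p)) ∧
    (∀ E : Set ℕ, (∀ (S : Type) [Finite S] (M : CoxeterMatrix S) (p : S → ℕ), Adm M p →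
        (∀ s, p s ∈ E) → (∀ s t, M s t ≠ 0) → C (Sh M p)) →
      ∀ (S : Type) [Finite S] (M : CoxeterMatrix S) (p : S → ℕ), Adm M p → (∀ s, p s ∈ E) →
        C (Sh M p)) := by
  classical
  refine ⟨?_, ?_, ?_⟩
  · intro S _ M p hp h
    exact main hC hF hp h
  · intro S _ M M' p hp hC' h
    exact del hC hF hp hC' M h
  · intro E h S _ M p hp hE
    let M' : CoxeterMatrix S :=
      { M := Matrix.of fun i j => if M i j = 0 then 2 else M i j
        isSymm := by
          ext i j
          simp only [Matrix.transpose_apply, Matrix.of_apply]
          rw [M.symmetric]
        diagonal := by
          intro i
          simp only [Matrix.of_apply]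
          rw [if_neg (by rw [M.diagonal]; exact one_ne_zero)]
          exact M.diagonal i
        off_diagonal := by
          intro i j hij
          simp only [Matrix.of_apply]
          split_ifs
          · decide
          · exact M.off_diagonal i j hij }
    have hM' : ∀ i j, M' i j = if M i j = 0 then 2 else M i j := fun i j => rfl
    have hp' : Adm M' p := by
      refine ⟨hp.even, fun i j hij => hp.odd i j ?_⟩
      rw [hM'] at hij
      split_ifs at hij
      · exact absurd hij (by decide)
      · exact hij
    refine del hC hF hp' (h S M' p hp' hE ?_) M ?_
    · intro s t
      rw [hM']
      split_ifs with h1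
      · decide
      · exact h1
    · intro s t
      rw [hM']
      split_ifs with h1
      · exact Or.inr h1
      · exact Or.inl rfl

end Pool.Agent.Results.MP_490288_al.ArtinGroups
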