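import Pool.Agent.K7.H10.PA.Pol

/-!
# Groups of polynomial automorphisms of the plane

`C` is any class of groups with the closure properties `ClosedE C` which contains the solvable groups
and the groups `F ⋊ Z` for all free groups `F` and all automorphisms of `F`. All this is published
for the class of the groups which satisfy the Full Farrell–Jones Conjecture.

For a commutative ring `A`, `Aut2 A` is the group of the automorphisms of the `A`-algebra
`A[X 0, X 1]`, `TA A` is the subgroup of those that are tame over every field to which `A` maps, and
`PA A` is the subgroup of the elements of `TA A` that fix the origin. By the theorem of Jung and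
van der Kulk `TA A` is equal to `Aut2 A`.

1. Let `G` be a subgroup of `TA A` and `b` a point of the plane, with coordinates in a ring `B` which
   contains `A`, whose orbit under `G` is finite. If the Jacobian matrices at `b` of the elements of
   `G` that fix `b` lie in a subgroup of `GL₂(B)` which is in `C`, then `G` is in `C`. In particular
   `G` is in `C` if `GL₂(B)` is.
2. `PA A` is in `C` if and only if `GL₂(A)` is. More generally, a group `H` with a homomorphism `ρ`
   to `GL₂(A)` is in `C` if and only if the fibre product of `PA A` and `H` over `GL₂(A)` is.
3. If all finitely generated subrings of `A` are finite, then `TA A` is in `C`.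
4. If `GL₂(R)` is in `C`, then `PA (R[σ])` is in `C`.

Outline of the proof. If `A` is a field, the group of the tame automorphisms that fix the origin and
have linear part `1` is the free product of the groups of the shears in direction `v`, one for each
point of the projective line over `A` (degree argument and ping-pong), and the theorem on extensions
whose kernel is a free product (`MP_490288_al.FreeProductExtensions`) applies to the fibre products.
A noetherian ring maps to the finite product of the fraction fields of its quotients by minimal
primes, and the kernel on automorphisms is solvable. Every ring is the union of its finitely generated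
subrings; minimal primes of a subring are contractions of primes. Points are moved to the origin by
translations over `B`.
-/

set_option autoImplicit false

namespace Pool.Agent.Results.MP_490288_al.PlaneAutomorphisms

open Pool.Agent.Y110.FJ Pool.Agent.K7.H10.PA

theorem result (C : ∀ (G : Type) [Group G], Prop) (hC : ClosedE C)
    (hF : ∀ (X : Type) (α : MulAut (FreeGroup X)),
      C (FreeGroup X ⋊[zpowersHom (MulAut (FreeGroup X)) α] Multiplicative ℤ))
    (hS : ∀ (S : Type) [Group S], Group.IsSolvable S → C S) :
    (∀ (A B : Type) [CommRing A] [CommRing B] (f : A →+* B), Function.Injective f →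
      ∀ (b : Fin 2 → B) (G : Subgroup (Aut2 A)), G ≤ TA A → FinOrb f b G →
        (C (GL (Fin 2) B) ∨ ∃ H : Subgroup (GL (Fin 2) B), C H ∧ JacIn f b G H) → C G) ∧
    (∀ (A : Type) [CommRing A], C (GL (Fin 2) A) ↔ C (PA A)) ∧
    (∀ (A : Type) [CommRing A] (H : Type) [Group H] (ρ : H →* GL (Fin 2) A),
      C H ↔ C (FL ρ)) ∧
    (∀ (A : Type) [CommRing A], LocFin A → C (TA A)) ∧
    (∀ (σ R : Type) [CommRing R], C (GL (Fin 2) R) → C (PA (MvPolynomial σ R))) := by
  refine ⟨?_, ?_, ?_, ?_, ?_⟩
  · intro A B _ _ f hf b G hG hfin h
    rcases h with h | ⟨H, hH, h⟩
    · exact orbit_GL hC hF hS f hf b G hG hfin h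
    · exact orbit hC hF hS f hf b G hG hfin H hH h
  · intro A _
    exact origin_iff hC hF hS
  · intro A _ H _ ρ
    exact ⟨fun h => fib_all hC hF hS h ρ, of_FL hC ρ⟩
  · intro A _ hA
    exact locfin hC hF hS hA
  · intro σ R _ h
    exact poly_St C hC hF hS σ R h

end Pool.Agent.Results.MP_490288_al.PlaneAutomorphisms
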