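import Pool.Agent.K7.H87.FJ2.Main

/-!
# `GL₂` over graded rings and over polynomial rings

`C` is any class of groups with the closure properties `ClosedE C` which contains the solvable groups
and the groups `F ⋊ Z` for all free groups `F` and all automorphisms of `F`. All this is published
for the class of the groups which satisfy the Full Farrell–Jones Conjecture.

Let `A` be a commutative ring with a grading `A = A₀ ⊕ A₁ ⊕ A₂ ⊕ ...`. Then `GL₂(A)` is in `C` if and
only if `GL₂(A₀)` is in `C`. More generally, a group `H` with a homomorphism `ρ` to `GL₂(A₀)` is in `C`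
if and only if the fibre product of `GL₂(A)` and `H` over `GL₂(A₀)` is. In particular `GL₂(R[σ])` is in
`C` if and only if `GL₂(R)` is, for every commutative ring `R` and every set `σ` of variables, and the
same holds for `SL₂`. So the Full Farrell–Jones Conjecture holds for `GL₂(Z[x₁, x₂, ...])` and
`GL₂(F[x₁, x₂, ...])`, `F` finite or a number field.

Outline of the proof. By `a ↦ ∑ aₙ tⁿ` one is reduced to the groups of the pairs `(g, h)` with
`g ∈ GL₂(A[t])`, `h ∈ H` and `g(0) = ρ(h)`; this is an extension of the kernel of
`GL₂(A[t]) → GL₂(A)` by `H`. If `A` is a field the kernel is the free product of the groups of the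
transvections with centre `v` and coefficients in `tA[t]`, one for each point of the projective line
over `A` (degree argument and ping-pong), and the theorem on extensions whose kernel is a free product
(`MP_490288_al.FreeProductExtensions`) applies, for `H` arbitrary. Domains embed into fields. A
noetherian ring maps to the finite product of its quotients by minimal primes, and the kernel on
`GL₂(A[t])` is solvable. Every ring is the union of its finitely generated subrings.
-/

set_option autoImplicit false

namespace Pool.Agent.Results.MP_490288_al.RankTwoGradedRings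

open Pool.Agent.Y110.FJ Pool.Agent.K7.H87.FJ2 Matrix

theorem result (C : ∀ (G : Type) [Group G], Prop) (hC : ClosedE C)
    (hF : ∀ (X : Type) (α : MulAut (FreeGroup X)),
      C (FreeGroup X ⋊[zpowersHom (MulAut (FreeGroup X)) α] Multiplicative ℤ))
    (hS : ∀ (S : Type) [Group S], Group.IsSolvable S → C S) :
    (∀ (A : Type) [CommRing A] (𝒜 : ℕ → AddSubgroup A) [GradedRing 𝒜] (H : Type) [Group H]
      (ρ : H →* GL (Fin 2) (𝒜 0)), C H ↔ C (FP (GradedRing.projZeroRingHom' 𝒜) ρ)) ∧
    (∀ (A : Type) [CommRing A] (𝒜 : ℕ → AddSubgroup A) [GradedRing 𝒜],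
      C (GL (Fin 2) (𝒜 0)) ↔ C (GL (Fin 2) A)) ∧
    (∀ (σ R : Type) [CommRing R],
      (C (GL (Fin 2) R) ↔ C (GL (Fin 2) (MvPolynomial σ R))) ∧
      (C (SpecialLinearGroup (Fin 2) R) ↔ C (SpecialLinearGroup (Fin 2) (MvPolynomial σ R)))) := by
  refine ⟨?_, ?_, ?_⟩
  · intro A _ 𝒜 _ H _ ρ
    exact graded_iff 𝒜 hC hF hS ρ
  · intro A _ 𝒜 _
    exact gl_iff hC (GradedRing.projZeroRingHom' 𝒜) (inc 𝒜)
      (fun r => GradedRing.projZeroRingHom'_apply_coe 𝒜 r) (graded_iff 𝒜 hC hF hS _)
  · intro σ R _
    exact ⟨gl_iff hC MvPolynomial.constantCoeff MvPolynomial.C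
        (fun r => MvPolynomial.constantCoeff_C σ r) (poly_iff hC hF hS _),
      sl_iff hC MvPolynomial.constantCoeff MvPolynomial.C
        (fun r => MvPolynomial.constantCoeff_C σ r) (poly_iff hC hF hS _)⟩

end Pool.Agent.Results.MP_490288_al.RankTwoGradedRings
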