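import Pool.Agent.K7.H87.FJ3.Fin

/-!
# `GL₂` over rings with one place at infinity

`C` is any class of groups with the closure properties `ClosedE C` which contains the solvable groups
and the groups `F ⋊ Z` for all free groups `F` and all automorphisms of `F`. All this is published
for the class of the groups which satisfy the Full Farrell–Jones Conjecture.

Let `K` be a field with a normalized discrete valuation `v` (written multiplicatively, with values in
`ℤᵐ⁰`) and let `A` be a subring of `K` with one place at infinity: `v a ≥ 1` for all `a ≠ 0` in `A`.
Let `φ : A → R` be a homomorphism of rings which is injective on the constants, the elements `a` of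
`A` with `v a ≤ 1`. If `GL₂(R)` is in `C`, then `GL₂(A)` is in `C`. More generally, if the homomorphisms
`α : G → GL₂(A)` and `β : G → H` are jointly injective, `φ ∘ α` is trivial on the kernel of `β`, and
`H` is in `C`, then `G` is in `C`.

Examples: `A` is the coordinate ring of an affine curve over a field `k` with one place at infinity, of any
genus, for instance `k[x, y] / (y² - x³ - a x - b)`, or more generally the ring of the regular functions on the
complement of an irreducible ample divisor of a normal projective variety over `k`; then the constants
are a finite extension of `k`, and `φ` is the reduction modulo any maximal ideal. If `k` is a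
number field or a finite field then `GL₂` of all finite extensions of `k` is in `C` by the known results.
For noetherian rings it is enough to treat the quotients by the minimal primes.

Outline of the proof. The kernel `N` of `β` acts on the tree of `GL₂(K)`. If an element of `N` fixes a vertex,
then its trace is a constant, and so it is unipotent since `φ` is injective on the constants; the same holds
if it fixes a line over the field of fractions of `A`. So the stabilizers of the vertices are
groups of transvections with a common line. If we contract all edges with a nontrivial stabilizer in
`N`, then the stabilizers in `N` of the vertices of the new tree are abelian groups of transvections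
and those of the edges are trivial. So `N` is the free product of a free group and of such groups,
one for each orbit of vertices, and the theorem on extensions whose kernel is a free product
(`MP_490288_al.FreeProductExtensions`) applies. The theory of groups acting on trees is done with nested
families of half-spaces, which makes the contraction trivial.
-/

set_option autoImplicit false

namespace Pool.Agent.Results.MP_490288_al.RankTwoOnePlace

open Pool.Agent.Y110.FJ Pool.Agent.K7.H87.FJ3 Matrix WithZero

theorem result (C : ∀ (G : Type) [Group G], Prop) (hC : ClosedE C)
    (hF : ∀ (X : Type) (α : MulAut (FreeGroup X)),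
      C (FreeGroup X ⋊[zpowersHom (MulAut (FreeGroup X)) α] Multiplicative ℤ))
    (hS : ∀ (S : Type) [Group S], Group.IsSolvable S → C S) :
    (∀ (K : Type) [Field K] (v : Valuation K ℤᵐ⁰), Function.Surjective v →
      ∀ (A : Type) [CommRing A] (ι : A →+* K), Function.Injective ι →
      (∀ a, a ≠ 0 → 1 ≤ v (ι a)) →
      ∀ (R : Type) [CommRing R] (φ : A →+* R), (∀ a, v (ι a) ≤ 1 → φ a = 0 → a = 0) →
      (∀ (G H : Type) [Group G] [Group H] (α : G →* GL (Fin 2) A) (β : G →* H),
        (∀ g, α g = 1 → β g = 1 → g = 1) →
        (∀ g, β g = 1 → GeneralLinearGroup.map φ (α g) = 1) → C H → C G) ∧
      (C (GL (Fin 2) R) → C (GL (Fin 2) A))) ∧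
    (∀ (A : Type) [CommRing A] [IsNoetherianRing A],
      (∀ p ∈ minimalPrimes A, C (GL (Fin 2) (A ⧸ p))) → C (GL (Fin 2) A)) := by
  refine ⟨?_, ?_⟩
  · intro K _ v hv A _ ι hι hA R _ φ hφ
    refine ⟨?_, one_place_gl hC hF hS v hv ι hι hA φ hφ⟩
    intro G H _ _ α β hαβ hker hH
    exact one_place' hC hF hS v hv ι hι hA φ hφ α β hαβ hker hH
  · intro A _ _ h
    exact gl_noeth hC hS h

end Pool.Agent.Results.MP_490288_al.RankTwoOnePlace
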